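import Pool.Agent.Helper37.RS.Base

/-!
# `A * A + A` and the numbers of elements with equal denominators

For a finite set `A` of rational numbers of one sign, `|A * A + A|` is at least the sum of the
squares of the numbers of elements of `A` with the same denominator.
-/

set_option autoImplicit false

namespace Pool.Agent.Results.MP_2b52df_co.EqualDenominators

open Finset
open scoped Pointwise

/-- Here `A` is a finite set of rational numbers, `N = A.card`, `a.den` is the denominator of `a`
in lowest terms and `r = (A.image Rat.den).card` the number of different denominators.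

1. If `0` is not in `A`, the sum over the denominators `d` of the squares of the numbers of
   elements with denominator `d` is at most `2 |A A + A|`.
2. If all elements are positive or all are negative, this sum is at most `|A A + A|`; so
   `N ^ 2 ≤ r |A A + A|`. If moreover `r ≤ 2`, then `|A + A| ≤ N (N + 1) / 2 ≤ |A A + A|`.
3. If `A` is a subset of `{1 / q, ..., n / q}` and `2 n r ≤ N ^ 2`, then `|A + A| ≤ |A A + A|`.
4. The bound `N ^ 2 ≤ r |A A + A|` is sharp up to the constant. -/
theorem result :
    (∀ A : Finset ℚ, (0 : ℚ) ∉ A →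
      ∑ d ∈ A.image Rat.den, (A.filter (fun a => a.den = d)).card ^ 2
        ≤ 2 * (A * A + A).card) ∧
    (∀ A : Finset ℚ, ((∀ a ∈ A, 0 < a) ∨ (∀ a ∈ A, a < 0)) →
      ∑ d ∈ A.image Rat.den, (A.filter (fun a => a.den = d)).card ^ 2 ≤ (A * A + A).card ∧
      A.card ^ 2 ≤ (A.image Rat.den).card * (A * A + A).card ∧
      ((A.image Rat.den).card ≤ 2 →
        A.card * (A.card + 1) ≤ 2 * (A * A + A).card ∧
        (A + A).card ≤ (A * A + A).card)) ∧
    (∀ (A : Finset ℚ) (q n : ℕ), 0 < q → (∀ a ∈ A, ∃ k : ℕ, 1 ≤ k ∧ k ≤ n ∧ a = (k : ℚ) / q) →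
      2 * n * (A.image Rat.den).card ≤ A.card ^ 2 → (A + A).card ≤ (A * A + A).card) ∧
    (∀ m : ℕ, ∃ A : Finset ℚ, A.Nonempty ∧ (∀ a ∈ A, 0 < a ∧ ∃ k : ℕ, a.den = 2 ^ k) ∧
      (m + 1) * (A * A + A).card ≤ 12 * A.card ^ 2 ∧
      (A.image Rat.den).card * (A * A + A).card ≤ 24 * A.card ^ 2) := by
  refine ⟨fun A h0 => (Helper37.RS.any_den A h0).1, ?_, ?_, Helper37.RS.dyadic⟩
  · intro A hs
    have h0 : (0 : ℚ) ∉ A := by
      intro h
      rcases hs with hs | hs
      · exact lt_irrefl _ (hs 0 h)
      · exact lt_irrefl _ (hs 0 h)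
    have h1 := (Helper37.RS.any_den A h0).2 hs
    refine ⟨h1, (Helper37.RS.sq_card A).trans (Nat.mul_le_mul_left _ h1), fun hr => ?_⟩
    have h3 := Helper37.RS.two_den A hs hr
    have h4 := Helper37.RS.card_add_self A
    exact ⟨h3, by omega⟩
  · intro A q n hq h hN
    have hq' : (0 : ℚ) < q := by exact_mod_cast hq
    refine Helper37.RS.dense A ?_ q n hq ?_ hN
    · intro a ha
      obtain ⟨k, h1, -, rfl⟩ := h a ha
      have : (0 : ℚ) < k := by exact_mod_cast h1
      positivity
    · intro a ha
      obtain ⟨k, -, h2, h3⟩ := h a ha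
      exact ⟨k, h2, h3⟩

end Pool.Agent.Results.MP_2b52df_co.EqualDenominators
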