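import Pool.Agent.Helper37.RG.Classes

/-!
# `A * A + A` for sets of rational numbers and the classes modulo `1` and modulo the multipliers
-/

set_option autoImplicit false

namespace Pool.Agent.Results.MP_2b52df_co.MultiplierClasses

open Finset
open scoped Pointwise

/-- Here `A` is a finite set of rational numbers, `N = A.card`, `a.den` is the denominator of `a`
in lowest terms, `q` is a common multiple of the denominators, `k = (A.image Int.fract).card` is
the number of classes of `A` modulo `1`, and `s` the number of `b` in `A` with `b + 1` in `A`.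

1. Let `X` be a subset of `A`, and for each `b` in `X` let `c b ≠ 0` be an element of `A` such
   that `den b` is coprime to `q / den (c b)`. Then `|A A + A|` is at least the sum over `b` in `X`
   of `N`, if `b` is the least element of its class of `A` modulo `1`, and of the number of classes
   of `A` modulo `c b` otherwise. It is also at least the sum over `b` in `X` of the number of
   elements of `A` in any given interval `[x, x + |c b|)`.
2. Suppose that for each `b` in `A` there is `c` in `A` such that `den b` is coprime to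
   `q / den c`. Then `|A + A| ≤ |A A + A|` if `(N - k) (N - k - 1) ≤ k (k - 1) + s (s - 1)`, or if
   all differences are less than `2`, or if each class of `A` modulo `1` consists of consecutive
   elements, or if each `c` can be chosen nonzero such that some interval `[x, x + |c|)` has at
   least `(N + 1) / 2` elements of `A`.
3. The case of denominators that are powers of one prime: here one element `c ≠ 0` of largest
   denominator is enough in the last case. -/
theorem result :
    (∀ (A X : Finset ℚ) (q : ℕ) (c x : ℚ → ℚ), X ⊆ A → (∀ a ∈ A, a.den ∣ q) →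
      (∀ b ∈ X, c b ∈ A ∧ c b ≠ 0 ∧ Nat.Coprime b.den (q / (c b).den)) →
      (∑ b ∈ X, if ∀ b' ∈ A, Int.fract b' = Int.fract b → b ≤ b' then A.card
        else (A.image (fun a => Int.fract (a / c b))).card) ≤ (A * A + A).card ∧
      ∑ b ∈ X, (A.filter (fun a => x b ≤ a ∧ a < x b + |c b|)).card ≤ (A * A + A).card) ∧
    (∀ (A : Finset ℚ) (q : ℕ), (∀ a ∈ A, a.den ∣ q) →
      (∀ b ∈ A, ∃ c ∈ A, Nat.Coprime b.den (q / c.den)) →
      ((A.card - (A.image Int.fract).card) * (A.card - (A.image Int.fract).card - 1) ≤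
          (A.image Int.fract).card * ((A.image Int.fract).card - 1) +
          (A.filter (fun b => b + 1 ∈ A)).card * ((A.filter (fun b => b + 1 ∈ A)).card - 1) ∨
        (∀ x ∈ A, ∀ y ∈ A, |x - y| < 2) ∨
        (∀ x ∈ A, ∀ i : ℕ, x + i + 1 ∈ A → x + 1 ∈ A) ∨
        (∀ b ∈ A, ∃ c ∈ A, c ≠ 0 ∧ Nat.Coprime b.den (q / c.den) ∧
          ∃ x : ℚ, A.card + 1 ≤ 2 * (A.filter (fun a => x ≤ a ∧ a < x + |c|)).card)) →
      (A + A).card ≤ (A * A + A).card) ∧
    (∀ (A : Finset ℚ) (p : ℕ), p.Prime → (∀ a ∈ A, ∃ i : ℕ, a.den = p ^ i) →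
      ((A.card - (A.image Int.fract).card) * (A.card - (A.image Int.fract).card - 1) ≤
          (A.image Int.fract).card * ((A.image Int.fract).card - 1) +
          (A.filter (fun b => b + 1 ∈ A)).card * ((A.filter (fun b => b + 1 ∈ A)).card - 1) ∨
        (∀ x ∈ A, ∀ y ∈ A, |x - y| < 2) ∨
        (∀ x ∈ A, ∀ i : ℕ, x + i + 1 ∈ A → x + 1 ∈ A) ∨
        (∃ c ∈ A, c ≠ 0 ∧ (∀ a ∈ A, a.den ≤ c.den) ∧
          ∃ x : ℚ, A.card + 1 ≤ 2 * (A.filter (fun a => x ≤ a ∧ a < x + |c|)).card)) →
      (A + A).card ≤ (A * A + A).card) := by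
  have main : ∀ (A : Finset ℚ) (q : ℕ), (∀ a ∈ A, a.den ∣ q) →
      (∀ b ∈ A, ∃ c ∈ A, Nat.Coprime b.den (q / c.den)) →
      ((A.card - (A.image Int.fract).card) * (A.card - (A.image Int.fract).card - 1) ≤
          (A.image Int.fract).card * ((A.image Int.fract).card - 1) +
          (A.filter (fun b => b + 1 ∈ A)).card * ((A.filter (fun b => b + 1 ∈ A)).card - 1) ∨
        (∀ x ∈ A, ∀ y ∈ A, |x - y| < 2) ∨
        (∀ x ∈ A, ∀ i : ℕ, x + i + 1 ∈ A → x + 1 ∈ A) ∨
        (∀ b ∈ A, ∃ c ∈ A, c ≠ 0 ∧ Nat.Coprime b.den (q / c.den) ∧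
          ∃ x : ℚ, A.card + 1 ≤ 2 * (A.filter (fun a => x ≤ a ∧ a < x + |c|)).card)) →
      (A + A).card ≤ (A * A + A).card := by
    intro A q hA hC h
    rcases h with h | h | h | h
    · exact Helper37.RS.half_fracs A q hA hC h
    · exact Helper37.RS.half_fracs A q hA hC
        (Helper37.RS.crit_of_half A (Helper37.RS.diam_two A h))
    · exact Helper37.RS.half_fracs A q hA hC (Helper37.RS.crit_of_nogap A h)
    · choose! c hc hc0 hcop x hx using h
      have h1 := Helper37.RG.windows A A q c x (Subset.refl A) hA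
        (fun b hb => ⟨hc b hb, hc0 b hb, hcop b hb⟩)
      have h2 : A.card * (A.card + 1) ≤
          2 * ∑ b ∈ A, (A.filter (fun a => x b ≤ a ∧ a < x b + |c b|)).card := by
        rw [mul_sum, ← smul_eq_mul]
        exact card_nsmul_le_sum _ _ _ hx
      have h3 := Helper37.RS.card_add_self A
      omega
  refine ⟨?_, main, ?_⟩
  · intro A X q c x hX hA hc
    refine ⟨?_, Helper37.RG.windows A X q c x hX hA hc⟩
    refine le_trans (le_of_eq ?_) (Helper37.RG.classes A X q c hX hA hc)
    refine sum_congr rfl fun b hb => ?_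
    have h1 : b ∈ Helper37.RS.bot A ↔ ∀ b' ∈ A, Int.fract b' = Int.fract b → b ≤ b' := by
      rw [Helper37.RS.bot, mem_filter]
      exact ⟨fun h => h.2, fun h => ⟨hX hb, h⟩⟩
    by_cases h2 : b ∈ Helper37.RS.bot A
    · rw [if_pos h2, if_pos (h1.mp h2)]
    · rw [if_neg h2, if_neg (fun h3 => h2 (h1.mpr h3))]
      rfl
  · intro A p hp hpp h
    rcases h with h | h | h | ⟨c, hc, hc0, hmax, hx⟩
    · obtain ⟨q, hA, hc⟩ := Helper37.RS.ppow A p hp hpp
      exact main A q hA hc (Or.inl h)
    · obtain ⟨q, hA, hc⟩ := Helper37.RS.ppow A p hp hpp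
      exact main A q hA hc (Or.inr (Or.inl h))
    · obtain ⟨q, hA, hc⟩ := Helper37.RS.ppow A p hp hpp
      exact main A q hA hc (Or.inr (Or.inr (Or.inl h)))
    · have hcop : ∀ b : ℚ, Nat.Coprime b.den (c.den / c.den) := fun b => by
        rw [Nat.div_self c.den_pos]; exact Nat.coprime_one_right _
      refine main A c.den ?_ (fun b _ => ⟨c, hc, hcop b⟩)
        (Or.inr (Or.inr (Or.inr fun b _ => ⟨c, hc, hc0, hcop b, hx⟩)))
      intro a ha
      obtain ⟨k, hk⟩ := hpp a ha
      obtain ⟨l, hl⟩ := hpp c hc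
      have h1 := hmax a ha
      rw [hk, hl] at h1 ⊢
      exact pow_dvd_pow p ((Nat.pow_le_pow_iff_right hp.one_lt).mp h1)

end Pool.Agent.Results.MP_2b52df_co.MultiplierClasses
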