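import Mathlib

/-!
# Size of `A * A + A` versus `A + A` for well separated sets of reals

For a finite set `A` of reals with gaps at least `δ` and a real `t` with `diam A ≤ 2 |t| δ` we show
`|A + t A| ≥ |A + A|`. If the gaps of `A` are at least `1` then the element of `A` of largest
absolute value is such a `t`.
-/

set_option autoImplicit false

namespace Pool.Agent.Results.MP_2b52df_co.SeparatedSets

open Finset
open scoped Pointwise

/-- all gaps of `A` are at least `δ` -/
def Gap (A : Finset ℝ) (δ : ℝ) : Prop := ∀ x ∈ A, ∀ y ∈ A, x ≠ y → δ ≤ |x - y|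

/-- the number of elements `a` of `A` for which `a + δ` is in `A` -/
noncomputable def steps (A : Finset ℝ) (δ : ℝ) : ℕ := (A.filter (fun a => a + δ ∈ A)).card

/-- the set of all `a + s b` -/
noncomputable def dil (A B : Finset ℝ) (s : ℝ) : Finset ℝ :=
  (A ×ˢ B).image (fun x => x.1 + s * x.2)

/-- an upper bound of the sumset -/
theorem card_sum_le (A : Finset ℝ) (δ : ℝ) (hδ : 0 < δ) :
    2 * (A + A).card + 2 * (steps A δ - 1) ≤ A.card * (A.card + 1) := by
  set Q := A.filter (fun a => a + δ ∈ A) with hQ
  let f : Sym2 ℝ → ℝ := Sym2.lift ⟨fun a b => a + b, fun a b => add_comm a b⟩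
  have hf : ∀ a b : ℝ, f s(a, b) = a + b := fun a b => rfl
  have hcard : 2 * A.sym2.card = A.card * (A.card + 1) := by
    rw [Finset.card_sym2, Nat.choose_two_right]
    have h2 : 2 ∣ (A.card + 1) * (A.card + 1 - 1) := by
      rw [Nat.add_sub_cancel, mul_comm]
      exact (Nat.even_mul_succ_self A.card).two_dvd
    rw [Nat.mul_div_cancel' h2, Nat.add_sub_cancel, mul_comm]
  have hmain : (A + A).card + (steps A δ - 1) ≤ A.sym2.card := by
    rcases Q.eq_empty_or_nonempty with hq | ⟨c, hc⟩
    · have h0 : steps A δ = 0 := by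
        unfold steps
        rw [← hQ, hq, card_empty]
      rw [h0]
      have h1 : A + A ⊆ A.sym2.image f := by
        intro z hz
        obtain ⟨a, ha, b, hb, rfl⟩ := mem_add.mp hz
        exact mem_image.mpr ⟨s(a, b), mk_mem_sym2_iff.mpr ⟨ha, hb⟩, hf a b⟩
      simpa using (card_le_card h1).trans card_image_le
    · have hcA : c ∈ A ∧ c + δ ∈ A := by
        rw [hQ, mem_filter] at hc
        exact hc
      set R := (Q.erase c).image (fun d => s(c, d + δ)) with hR
      have hRcard : R.card = steps A δ - 1 := by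
        rw [hR, card_image_of_injective, card_erase_of_mem hc]
        · rfl
        · intro d d' h
          simp only [Sym2.eq_iff] at h
          rcases h with ⟨_, h⟩ | ⟨h1, h2⟩ <;> linarith
      have hRsub : R ⊆ A.sym2 := by
        intro e he
        obtain ⟨d, hd, rfl⟩ := mem_image.mp he
        have hdQ := mem_of_mem_erase hd
        rw [hQ, mem_filter] at hdQ
        exact mk_mem_sym2_iff.mpr ⟨hcA.1, hdQ.2⟩
      have h1 : A + A ⊆ (A.sym2 \ R).image f := by
        intro z hz
        obtain ⟨a, ha, b, hb, rfl⟩ := mem_add.mp hz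
        by_cases hab : s(a, b) ∈ R
        · obtain ⟨d, hd, he⟩ := mem_image.mp hab
          have hdc : d ≠ c := (mem_erase.mp hd).1
          have hdQ := mem_of_mem_erase hd
          rw [hQ, mem_filter] at hdQ
          refine mem_image.mpr ⟨s(c + δ, d), ?_, ?_⟩
          · rw [mem_sdiff]
            refine ⟨mk_mem_sym2_iff.mpr ⟨hcA.2, hdQ.1⟩, ?_⟩
            intro hin
            obtain ⟨d', hd', he'⟩ := mem_image.mp hin
            simp only [Sym2.eq_iff] at he'
            rcases he' with ⟨h, _⟩ | ⟨h, _⟩
            · linarith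
            · exact hdc h.symm
          · rw [hf]
            have : f s(a, b) = f s(c, d + δ) := by
              have he2 : s(c, d + δ) = s(a, b) := he
              rw [he2]
            rw [hf, hf] at this
            linarith
        · exact mem_image.mpr ⟨s(a, b), mem_sdiff.mpr ⟨mk_mem_sym2_iff.mpr ⟨ha, hb⟩, hab⟩, hf a b⟩
      have h2 := (card_le_card h1).trans card_image_le
      have h3 := card_sdiff_add_card_eq_card hRsub
      rw [hRcard] at h3
      omega
  omega

theorem arith (n x : ℕ) (hx : x ≤ n) (h2 : n ≤ 2 * x) :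
    n * (n + 1) ≤ 2 * (x * n + (n - x)) := by
  obtain ⟨k, rfl⟩ := Nat.exists_eq_add_of_le hx
  rw [Nat.add_sub_cancel_left]
  obtain ⟨j, hj⟩ := Nat.exists_eq_add_of_le (show k ≤ x by omega)
  subst hj
  rcases Nat.eq_zero_or_pos (k + j) with h0 | h0
  · have h1 : k = 0 := by omega
    have h3 : j = 0 := by omega
    subst h1
    subst h3
    simp
  · nlinarith [Nat.mul_le_mul_left j h0]

/-- the main estimate, for a positive factor -/
theorem card_dil_ge (A B : Finset ℝ) (s δ : ℝ) (hs : 0 < s) (hδ : 0 < δ) (hB : Gap B δ)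
    (hD : ∀ x ∈ A, ∀ y ∈ A, |x - y| ≤ 2 * s * δ) (hcard : B.card = A.card) :
    A.card * (A.card + 1) ≤ 2 * (dil A B s).card + 2 * (steps B δ - 1) := by
  rcases A.eq_empty_or_nonempty with hA | hA
  · rw [hA]
    simp
  have hBne : B.Nonempty := by
    rw [← card_pos, hcard, card_pos]
    exact hA
  set n := A.card with hn
  have hn1 : 1 ≤ n := card_pos.mpr hA
  obtain ⟨α, hα, hαmin⟩ := A.exists_min_image id hA
  obtain ⟨β, hβ, hβmax⟩ := A.exists_max_image id hA
  obtain ⟨bl, hbl, hblmin⟩ := B.exists_min_image id hBne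
  obtain ⟨bh, hbh, hbhmax⟩ := B.exists_max_image id hBne
  simp only [id] at hαmin hβmax hblmin hbhmax
  have hαβ : α ≤ β := hαmin β hβ
  have hdiam : β - α ≤ 2 * s * δ := (le_abs_self _).trans (hD β hβ α hα)
  set μ := (α + β) / 2 with hμ
  set X := A.filter (fun a => a < μ) with hX
  set Y := A.filter (fun a => μ < a) with hY
  -- sums are determined by the second term
  have hdir : ∀ a a' b b' : ℝ, b ∈ B → b' ∈ B → |a - a'| < s * δ →
      a + s * b = a' + s * b' → a = a' ∧ b = b' := by
    intro a a' b b' hb hb' hlt h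
    have hbb : b = b' := by
      by_contra hne
      have h1 := hB b' hb' b hb (fun h => hne h.symm)
      have h2 : a - a' = s * (b' - b) := by linarith
      rw [h2, abs_mul, abs_of_pos hs] at hlt
      have h3 : s * δ ≤ s * |b' - b| := mul_le_mul_of_nonneg_left h1 hs.le
      linarith
    refine ⟨?_, hbb⟩
    rw [hbb] at h
    linarith
  have hXlt : ∀ a ∈ X, ∀ a' ∈ X, |a - a'| < s * δ := by
    intro a ha a' ha'
    rw [hX, mem_filter] at ha ha'
    have h1 := hαmin a ha.1
    have h2 := hαmin a' ha'.1
    rw [abs_lt]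
    constructor <;> linarith [ha.2, ha'.2]
  have hYlt : ∀ a ∈ Y, ∀ a' ∈ Y, |a - a'| < s * δ := by
    intro a ha a' ha'
    rw [hY, mem_filter] at ha ha'
    have h1 := hβmax a ha.1
    have h2 := hβmax a' ha'.1
    rw [abs_lt]
    constructor <;> linarith [ha.2, ha'.2]
  have hcardprod : ∀ Z ⊆ A, (∀ a ∈ Z, ∀ a' ∈ Z, |a - a'| < s * δ) →
      (dil Z B s).card = Z.card * n := by
    intro Z _ hZ
    unfold dil
    rw [card_image_of_injOn, card_product, hcard]
    rintro ⟨a, b⟩ hab ⟨a', b'⟩ hab' h
    simp only [coe_product, Set.mem_prod, mem_coe] at hab hab'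
    have := hdir a a' b b' hab.2 hab'.2 (hZ a hab.1 a' hab'.1) h
    rw [this.1, this.2]
  have hsub : ∀ Z ⊆ A, dil Z B s ⊆ dil A B s := by
    intro Z hZ
    exact image_subset_image (product_subset_product_left hZ)
  have hXA : X ⊆ A := filter_subset _ _
  have hYA : Y ⊆ A := filter_subset _ _
  -- first bound
  have hXb : X.card * n + (n - X.card) ≤ (dil A B s).card := by
    set N := (A \ X).image (fun a => a + s * bh) with hN
    have hNcard : N.card = n - X.card := by
      rw [hN, card_image_of_injective _ (add_left_injective _), card_sdiff_of_subset hXA]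
    have hdisj : Disjoint (dil X B s) N := by
      rw [disjoint_left]
      intro z hz hz'
      obtain ⟨⟨x, b⟩, hxb, rfl⟩ := mem_image.mp hz
      obtain ⟨y, hy, hyz⟩ := mem_image.mp hz'
      rw [mem_product] at hxb
      have hx2 : x < μ := (mem_filter.mp hxb.1).2
      have hy2 : μ ≤ y := by
        by_contra hc
        push Not at hc
        exact (mem_sdiff.mp hy).2 (mem_filter.mpr ⟨(mem_sdiff.mp hy).1, hc⟩)
      have hb2 : s * b ≤ s * bh := mul_le_mul_of_nonneg_left (hbhmax b hxb.2) hs.le
      try simp only at hyz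
      linarith
    have hsubN : N ⊆ dil A B s := by
      intro z hz
      obtain ⟨y, hy, rfl⟩ := mem_image.mp hz
      exact mem_image.mpr ⟨(y, bh), mem_product.mpr ⟨(mem_sdiff.mp hy).1, hbh⟩, rfl⟩
    rw [← hNcard, ← hcardprod X hXA hXlt, ← card_union_of_disjoint hdisj]
    exact card_le_card (union_subset (hsub X hXA) hsubN)
  have hYb : Y.card * n + (n - Y.card) ≤ (dil A B s).card := by
    set N := (A \ Y).image (fun a => a + s * bl) with hN
    have hNcard : N.card = n - Y.card := by
      rw [hN, card_image_of_injective _ (add_left_injective _), card_sdiff_of_subset hYA]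
    have hdisj : Disjoint (dil Y B s) N := by
      rw [disjoint_left]
      intro z hz hz'
      obtain ⟨⟨x, b⟩, hxb, rfl⟩ := mem_image.mp hz
      obtain ⟨y, hy, hyz⟩ := mem_image.mp hz'
      rw [mem_product] at hxb
      have hx2 : μ < x := (mem_filter.mp hxb.1).2
      have hy2 : y ≤ μ := by
        by_contra hc
        push Not at hc
        exact (mem_sdiff.mp hy).2 (mem_filter.mpr ⟨(mem_sdiff.mp hy).1, hc⟩)
      have hb2 : s * bl ≤ s * b := mul_le_mul_of_nonneg_left (hblmin b hxb.2) hs.le
      try simp only at hyz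
      linarith
    have hsubN : N ⊆ dil A B s := by
      intro z hz
      obtain ⟨y, hy, rfl⟩ := mem_image.mp hz
      exact mem_image.mpr ⟨(y, bl), mem_product.mpr ⟨(mem_sdiff.mp hy).1, hbl⟩, rfl⟩
    rw [← hNcard, ← hcardprod Y hYA hYlt, ← card_union_of_disjoint hdisj]
    exact card_le_card (union_subset (hsub Y hYA) hsubN)
  have hXn : X.card ≤ n := card_le_card hXA
  have hYn : Y.card ≤ n := card_le_card hYA
  by_cases hc1 : n ≤ 2 * X.card
  · have := arith n X.card hXn hc1
    omega
  by_cases hc2 : n ≤ 2 * Y.card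
  · have := arith n Y.card hYn hc2
    omega
  -- the balanced case
  have hpart : n ≤ X.card + Y.card + 1 ∧ (n = X.card + Y.card + 1 → μ ∈ A) := by
    have hXY : Disjoint X Y := by
      rw [disjoint_left]
      intro a ha hb
      have h1 := (mem_filter.mp ha).2
      have h2 := (mem_filter.mp hb).2
      linarith
    have hsubA : A ⊆ insert μ (X ∪ Y) := by
      intro a ha
      rcases lt_trichotomy a μ with h | h | h
      · exact mem_insert_of_mem (mem_union_left _ (mem_filter.mpr ⟨ha, h⟩))
      · rw [h]; exact mem_insert_self _ _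
      · exact mem_insert_of_mem (mem_union_right _ (mem_filter.mpr ⟨ha, h⟩))
    constructor
    · calc n ≤ (insert μ (X ∪ Y)).card := card_le_card hsubA
        _ ≤ (X ∪ Y).card + 1 := card_insert_le _ _
        _ = X.card + Y.card + 1 := by rw [card_union_of_disjoint hXY]
    · intro heq
      by_contra hμA
      have : A ⊆ X ∪ Y := by
        intro a ha
        have := hsubA ha
        rw [mem_insert] at this
        rcases this with h | h
        · rw [h] at ha; exact absurd ha hμA
        · exact h
      have := card_le_card this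
      rw [card_union_of_disjoint hXY] at this
      omega
  have hXh : X.card = Y.card := by omega
  have hnh : n = 2 * X.card + 1 := by omega
  have hμA : μ ∈ A := hpart.2 (by omega)
  set h := X.card with hh
  set N0 := (B.filter (fun b => b + δ ∉ B)).image (fun b => μ + s * b) with hN0
  set N1 := Y.image (fun a => a + s * bh) with hN1
  have hN0card : N0.card + steps B δ = n := by
    rw [hN0, card_image_of_injective _ (fun b b' hbb => by
      have := add_left_cancel hbb
      exact mul_left_cancel₀ hs.ne' this)]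
    unfold steps
    rw [add_comm, card_filter_add_card_filter_not, hcard]
  have hN1card : N1.card = h := by
    rw [hN1, card_image_of_injective _ (add_left_injective _), ← hXh]
  have hd01 : Disjoint N0 N1 := by
    rw [disjoint_left]
    intro z hz hz'
    obtain ⟨b, hb, rfl⟩ := mem_image.mp hz
    obtain ⟨y, hy, hyz⟩ := mem_image.mp hz'
    have hy2 : μ < y := (mem_filter.mp hy).2
    have hb2 : s * b ≤ s * bh := mul_le_mul_of_nonneg_left (hbhmax b (mem_filter.mp hb).1) hs.le
    try simp only at hyz
    linarith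
  have hdX : Disjoint (dil X B s) (N0 ∪ N1) := by
    rw [disjoint_left]
    intro z hz hz'
    obtain ⟨⟨x, b'⟩, hxb, rfl⟩ := mem_image.mp hz
    rw [mem_product] at hxb
    have hxA : x ∈ A := (mem_filter.mp hxb.1).1
    have hx2 : x < μ := (mem_filter.mp hxb.1).2
    rcases mem_union.mp hz' with h0 | h1
    · obtain ⟨b, hb, hbz⟩ := mem_image.mp h0
      rw [mem_filter] at hb
      simp only at hbz hxb
      have e1 : s * (b' - b) = μ - x := by linarith
      have e2 : μ - x ≤ s * δ := by
        have := hαmin x hxA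
        linarith
      have e3 : 0 < b' - b := by
        by_contra hc
        push Not at hc
        have : s * (b' - b) ≤ 0 := mul_nonpos_of_nonneg_of_nonpos hs.le hc
        linarith
      have e4 : b' - b ≤ δ := by
        have : s * (b' - b) ≤ s * δ := by linarith
        exact le_of_mul_le_mul_left this hs
      have e5 := hB b' hxb.2 b hb.1 (fun h => by rw [h] at e3; linarith)
      rw [abs_of_pos e3] at e5
      have e6 : b + δ = b' := by linarith
      exact hb.2 (e6 ▸ hxb.2)
    · obtain ⟨y, hy, hyz⟩ := mem_image.mp h1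
      have hy2 : μ < y := (mem_filter.mp hy).2
      have hb2 : s * b' ≤ s * bh := mul_le_mul_of_nonneg_left (hbhmax b' hxb.2) hs.le
      try simp only at hyz
      linarith
  have hN01 : N0 ∪ N1 ⊆ dil A B s := by
    refine union_subset ?_ ?_
    · intro z hz
      obtain ⟨b, hb, rfl⟩ := mem_image.mp hz
      exact mem_image.mpr ⟨(μ, b), mem_product.mpr ⟨hμA, (mem_filter.mp hb).1⟩, rfl⟩
    · intro z hz
      obtain ⟨y, hy, rfl⟩ := mem_image.mp hz
      exact mem_image.mpr ⟨(y, bh), mem_product.mpr ⟨hYA hy, hbh⟩, rfl⟩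
  have hfin : h * n + (N0.card + h) ≤ (dil A B s).card := by
    have e1 : (N0 ∪ N1).card = N0.card + h := by
      rw [card_union_of_disjoint hd01, hN1card]
    rw [← e1, ← hcardprod X hXA hXlt, ← card_union_of_disjoint hdX]
    exact card_le_card (union_subset (hsub X hXA) hN01)
  have hstep : steps B δ ≤ n := by omega
  have e1 : n * (n + 1) = 2 * (h * n) + 2 * n := by
    calc n * (n + 1) = n * (2 * h + 1 + 1) := by rw [← hnh]
      _ = _ := by ring
  rcases Nat.eq_zero_or_pos (steps B δ) with h0 | h0
  · omega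
  · have hstep2 : 2 ≤ n := by
      obtain ⟨b, hb⟩ := card_pos.mp h0
      rw [mem_filter] at hb
      have : ({b, b + δ} : Finset ℝ) ⊆ B := by
        intro z hz
        simp only [mem_insert, mem_singleton] at hz
        rcases hz with rfl | rfl
        · exact hb.1
        · exact hb.2
      have h2 := card_le_card this
      rw [card_pair (by linarith)] at h2
      omega
    omega

/-- the sumset with a dilate is at least as large as the sumset -/
theorem card_sum_le_dil (A : Finset ℝ) (t δ : ℝ) (ht : t ≠ 0) (hδ : 0 < δ) (hA : Gap A δ)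
    (hD : ∀ x ∈ A, ∀ y ∈ A, |x - y| ≤ 2 * |t| * δ) : (A + A).card ≤ (dil A A t).card := by
  have h1 := card_sum_le A δ hδ
  rcases lt_or_gt_of_ne ht with hneg | hpos
  · have hs : 0 < -t := by linarith
    have h2 := card_dil_ge (A.image (fun a => -a)) A (-t) δ hs hδ hA
      (by
        intro x hx y hy
        obtain ⟨a, ha, rfl⟩ := mem_image.mp hx
        obtain ⟨b, hb, rfl⟩ := mem_image.mp hy
        have h3 := hD a ha b hb
        rw [abs_of_neg hneg] at h3
        have h4 : -a - -b = -(a - b) := by ring
        rw [h4, abs_neg]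
        exact h3)
      (card_image_of_injective _ neg_injective).symm
    rw [card_image_of_injective _ neg_injective] at h2
    have h3 : dil (A.image (fun a => -a)) A (-t) = (dil A A t).image (fun z => -z) := by
      ext z
      unfold dil
      simp only [mem_image, mem_product, Prod.exists]
      constructor
      · rintro ⟨x, y, ⟨⟨a, ha, rfl⟩, hy⟩, rfl⟩
        exact ⟨a + t * y, ⟨a, y, ⟨ha, hy⟩, rfl⟩, by ring⟩
      · rintro ⟨w, ⟨a, y, ⟨ha, hy⟩, rfl⟩, rfl⟩
        exact ⟨-a, y, ⟨⟨a, ha, rfl⟩, hy⟩, by ring⟩
    rw [h3, card_image_of_injective _ neg_injective] at h2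
    omega
  · have h2 := card_dil_ge A A t δ hpos hδ hA (by rw [abs_of_pos hpos] at hD; exact hD) rfl
    omega

theorem dil_subset (A : Finset ℝ) {t : ℝ} (ht : t ∈ A) : dil A A t ⊆ A * A + A := by
  intro z hz
  obtain ⟨⟨a, b⟩, hab, rfl⟩ := mem_image.mp hz
  rw [mem_product] at hab
  exact mem_add.mpr ⟨t * b, mul_mem_mul ht hab.2, a, hab.1, add_comm _ _⟩

theorem card_dil_inv (A : Finset ℝ) {t : ℝ} (ht : t ≠ 0) :
    (dil A A t⁻¹).card = (dil A A t).card := by
  have h : dil A A t = (dil A A t⁻¹).image (fun z => t * z) := by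
    ext z
    unfold dil
    simp only [mem_image, mem_product, Prod.exists]
    constructor
    · rintro ⟨a, b, ⟨ha, hb⟩, rfl⟩
      refine ⟨b + t⁻¹ * a, ⟨b, a, ⟨hb, ha⟩, rfl⟩, ?_⟩
      field_simp
      ring
    · rintro ⟨w, ⟨b, a, ⟨hb, ha⟩, rfl⟩, rfl⟩
      refine ⟨a, b, ⟨ha, hb⟩, ?_⟩
      field_simp
      ring
  rw [h, card_image_of_injective _ (fun x y hxy => mul_left_cancel₀ ht hxy)]

/-- the inequality holds if some non-zero element of `A` is large or small in terms of the
diameter and of the gaps of `A` -/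
theorem card_le_of (A : Finset ℝ) (δ t : ℝ) (hδ : 0 < δ) (hA : Gap A δ) (ht : t ∈ A) (ht0 : t ≠ 0)
    (h : (∀ x ∈ A, ∀ y ∈ A, |x - y| ≤ 2 * |t| * δ) ∨ (∀ x ∈ A, ∀ y ∈ A, |t| * |x - y| ≤ 2 * δ)) :
    (A + A).card ≤ (A * A + A).card := by
  refine le_trans ?_ (card_le_card (dil_subset A ht))
  rcases h with h | h
  · exact card_sum_le_dil A t δ ht0 hδ hA h
  · rw [← card_dil_inv A ht0]
    refine card_sum_le_dil A t⁻¹ δ (inv_ne_zero ht0) hδ hA ?_
    intro x hx y hy
    have hpos : 0 < |t| := abs_pos.mpr ht0
    rw [abs_inv]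
    have h1 := h x hx y hy
    have h2 : |x - y| ≤ 2 * δ / |t| := by
      rw [le_div_iff₀ hpos]
      linarith
    calc |x - y| ≤ 2 * δ / |t| := h2
      _ = 2 * |t|⁻¹ * δ := by ring

/-- Part 1: the inequality holds for all finite sets of reals with gaps at least `1` (in
particular for all finite sets of integers). Part 2: if `A` violates the inequality and all gaps
of `A` are at least `δ > 0` then every non-zero `t` in `A` satisfies `2 δ / D < |t| < D / (2 δ)`
where `D` is the diameter of `A`. -/
theorem result :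
    (∀ A : Finset ℝ, (∀ x ∈ A, ∀ y ∈ A, x ≠ y → 1 ≤ |x - y|) →
      (A + A).card ≤ (A * A + A).card) ∧
    (∀ (A : Finset ℝ) (δ : ℝ), 0 < δ → (∀ x ∈ A, ∀ y ∈ A, x ≠ y → δ ≤ |x - y|) →
      (A * A + A).card < (A + A).card →
      ∃ x ∈ A, ∃ y ∈ A, ∀ t ∈ A, t ≠ 0 → 2 * |t| * δ < |x - y| ∧ 2 * δ < |t| * |x - y|) := by
  constructor
  · intro A hA
    rcases A.eq_empty_or_nonempty with h0 | h0
    · rw [h0]
      simp
    · obtain ⟨t, ht, hmax⟩ := A.exists_max_image (fun a => |a|) h0
      by_cases ht0 : t = 0
      · have h1 : A ⊆ {0} := by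
          intro a ha
          have := hmax a ha
          rw [ht0, abs_zero] at this
          rw [mem_singleton]
          exact abs_nonpos_iff.mp this
        have h2 : A + A ⊆ {0} := by
          intro z hz
          obtain ⟨a, ha, b, hb, rfl⟩ := mem_add.mp hz
          have h3 := mem_singleton.mp (h1 ha)
          have h4 := mem_singleton.mp (h1 hb)
          rw [h3, h4, add_zero]
          exact mem_singleton_self 0
        have h3 : (A + A).card ≤ 1 := card_le_card h2
        have h4 : 0 < (A * A + A).card :=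
          card_pos.mpr ((h0.mul h0).add h0)
        omega
      · refine card_le_of A 1 t one_pos hA ht ht0 (Or.inl ?_)
        intro x hx y hy
        have h1 := hmax x hx
        have h2 := hmax y hy
        calc |x - y| ≤ |x| + |y| := abs_sub x y
          _ ≤ 2 * |t| * 1 := by linarith
  · intro A δ hδ hA hlt
    have h0 : A.Nonempty := by
      rcases A.eq_empty_or_nonempty with h | h
      · rw [h] at hlt
        simp at hlt
      · exact h
    obtain ⟨α, hα, hαmin⟩ := A.exists_min_image id h0
    obtain ⟨β, hβ, hβmax⟩ := A.exists_max_image id h0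
    simp only [id] at hαmin hβmax
    have hdiam : ∀ x ∈ A, ∀ y ∈ A, |x - y| ≤ |β - α| := by
      intro x hx y hy
      have h1 := hαmin x hx
      have h2 := hαmin y hy
      have h3 := hβmax x hx
      have h4 := hβmax y hy
      rw [abs_of_nonneg (by linarith : (0 : ℝ) ≤ β - α), abs_le]
      constructor <;> linarith
    refine ⟨β, hβ, α, hα, ?_⟩
    intro t ht ht0
    constructor
    · by_contra hc
      push Not at hc
      exact absurd (card_le_of A δ t hδ hA ht ht0
        (Or.inl (fun x hx y hy => (hdiam x hx y hy).trans hc))) (not_le.mpr hlt)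
    · by_contra hc
      push Not at hc
      refine absurd (card_le_of A δ t hδ hA ht ht0
        (Or.inr (fun x hx y hy => ?_))) (not_le.mpr hlt)
      exact (mul_le_mul_of_nonneg_left (hdiam x hx y hy) (abs_nonneg t)).trans hc

end Pool.Agent.Results.MP_2b52df_co.SeparatedSets
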