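import Pool.Agent.Helper37.RG.Except
import Pool.Agent.Helper37.RS.Real
import Pool.Agent.Helper37.RV.Rat

/-!
# `A * A + A` and `A + A` for sets with squarefree or dominated denominators
-/

set_option autoImplicit false

namespace Pool.Agent.Results.MP_2b52df_co.SquarefreeDenominators

open Finset
open scoped Pointwise

/-- 1. Let `A` be a finite set of rational numbers. Suppose that every prime `p` divides the
   denominator of `a - b` whenever `a ≠ b` are elements of `A` whose denominators (in lowest terms)
   are divisible by `p ^ 2`; for example, all denominators may be squarefree. Then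
   `|A + A| ≤ |A A + A|`.
2. Let `A` be a finite set of rational numbers and `q` a common multiple of the denominators. If
   for each `b` in `A` there is `c` in `A` with `|b| ≤ |c|` such that the denominator of `b` is
   coprime to `q / den c`, then `|A + A| ≤ |A A + A|`.
3. Let `t` be a family of real numbers, algebraically independent over `ℚ`, and `q` a natural
   number. Let `A` be a finite set of real numbers, each of which is a polynomial in the `t i` with
   rational coefficients such that the denominator `d` of the constant term divides `q` and is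
   coprime to `q / d`. Then `|A + A| ≤ |A A + A|`. -/
theorem result :
    (∀ A : Finset ℚ,
      (∀ p : ℕ, p.Prime → ∀ a ∈ A, ∀ b ∈ A, a ≠ b → p ^ 2 ∣ a.den → p ^ 2 ∣ b.den →
        p ∣ (a - b).den) →
      (A + A).card ≤ (A * A + A).card) ∧
    (∀ (A : Finset ℚ) (q : ℕ), (∀ a ∈ A, a.den ∣ q) →
      (∀ b ∈ A, ∃ c ∈ A, |b| ≤ |c| ∧ Nat.Coprime b.den (q / c.den)) →
      (A + A).card ≤ (A * A + A).card) ∧
    (∀ (ι : Type) (t : ι → ℝ), AlgebraicIndependent ℚ t → ∀ (A : Finset ℝ) (q : ℕ),
      (∀ a ∈ A, ∃ P : MvPolynomial ι ℚ, MvPolynomial.aeval t P = a ∧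
        (MvPolynomial.constantCoeff P).den ∣ q ∧
        Nat.Coprime (MvPolynomial.constantCoeff P).den
          (q / (MvPolynomial.constantCoeff P).den)) →
      (A + A).card ≤ (A * A + A).card) := by
  refine ⟨?_, ?_, ?_⟩
  · intro A h
    exact Helper37.RV.rat A h
  · intro A q hA hD
    exact Helper37.RG.dominated A q hA hD
  · intro ι t ht A q hA
    exact Helper37.RS.real_sets t ht A q hA

end Pool.Agent.Results.MP_2b52df_co.SquarefreeDenominators
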